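import Mathlib
import Pool.Agent.W543.GE.Stm

/-!
# Good endomorphisms of free algebras: part INJD
-/

set_option autoImplicit false

open scoped TensorProduct
open Pool.Agent.W543.GE

universe u

namespace Pool.Agent.W929.GE

section

variable {K : Type u} [Field K] {n : ℕ} {F : Type u} [Field F] [Algebra K F] {N : ℕ}

/-- The operator `s ↦ (v ↦ vecMul (s (T v)) M)`, linear over `F`. -/
noncomputable def opE {V : Type u} [AddCommGroup V] [Module K V] (T : V →ₗ[K] V)
    (M : Matrix (Fin N) (Fin N) F) : (V →ₗ[K] (Fin N → F)) →ₗ[F] (V →ₗ[K] (Fin N → F)) where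
  toFun s := ((Matrix.vecMulLinear M).restrictScalars K) ∘ₗ s ∘ₗ T
  map_add' s t := by
    ext v i
    simp [Matrix.add_vecMul]
  map_smul' c s := by
    refine LinearMap.ext fun v => ?_
    simp only [LinearMap.comp_apply, LinearMap.smul_apply, LinearMap.restrictScalars_apply,
      RingHom.id_apply, map_smul]

theorem opE_apply {V : Type u} [AddCommGroup V] [Module K V] (T : V →ₗ[K] V)
    (M : Matrix (Fin N) (Fin N) F) (s : V →ₗ[K] (Fin N → F)) (v : V) :
    opE T M s v = Matrix.vecMul (s (T v)) M := rfl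

/-- The map `p ⊗ q ↦ vecMul (s p) (ev X q)`. -/
noncomputable def zeta (X : Fin n → Matrix (Fin N) (Fin N) F) (s : A K n →ₗ[K] (Fin N → F)) :
    (A K n ⊗[K] A K n) →ₗ[K] (Fin N → F) :=
  TensorProduct.lift (LinearMap.mk₂ K (fun p q => Matrix.vecMul (s p) (ev X q))
    (fun p p' q => by rw [map_add, Matrix.add_vecMul])
    (fun c p q => by rw [map_smul, Matrix.smul_vecMul])
    (fun p q q' => by rw [map_add, Matrix.vecMul_add])
    (fun c p q => by rw [map_smul, Matrix.vecMul_smul]))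

theorem zeta_tmul (X : Fin n → Matrix (Fin N) (Fin N) F) (s : A K n →ₗ[K] (Fin N → F))
    (p q : A K n) : zeta X s (p ⊗ₜ q) = Matrix.vecMul (s p) (ev X q) := rfl

theorem zeta_mul (X : Fin n → Matrix (Fin N) (Fin N) F) (s : A K n →ₗ[K] (Fin N → F))
    (z : A K n ⊗[K] A K n) (f : A K n) :
    zeta X s (z * (1 ⊗ₜ f)) = Matrix.vecMul (zeta X s z) (ev X f) := by
  induction z using TensorProduct.induction_on with
  | zero => rw [zero_mul, map_zero, Matrix.zero_vecMul]
  | tmul p q =>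
    rw [Algebra.TensorProduct.tmul_mul_tmul, mul_one, zeta_tmul, zeta_tmul, map_mul,
      Matrix.vecMul_vecMul]
  | add a b ha hb => rw [add_mul, map_add, map_add, ha, hb, Matrix.add_vecMul]

theorem nab_eq {φ : A K n →ₐ[K] A K n} {D : Fin n → (A K n →ₗ[K] A K n)}
    {nab : A K n →ₗ[K] A K n ⊗[K] A K n} (h : IsStrip φ D nab) (a : A K n) :
    nab a = a ⊗ₜ 1 + ∑ k, nab (D k a) * (1 ⊗ₜ φ (x k)) := by
  have h1 : nab (algebraMap K (A K n) (eps a)) = (algebraMap K (A K n) (eps a)) ⊗ₜ 1 := by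
    rw [Algebra.algebraMap_eq_smul_one, map_smul, h.nab_one, ← TensorProduct.smul_tmul']
    rfl
  have h2 : nab a = nab (algebraMap K (A K n) (eps a) + ∑ j, D j a * φ (x j)) :=
    congrArg nab (h.decomp a)
  rw [h2, map_add, map_sum, h1]
  have h3 : (a : A K n) ⊗ₜ[K] (1 : A K n) =
      (algebraMap K (A K n) (eps a)) ⊗ₜ 1 + ∑ j, (D j a * φ (x j)) ⊗ₜ[K] (1 : A K n) := by
    rw [← TensorProduct.sum_tmul, ← TensorProduct.add_tmul, ← h.decomp a]
  rw [h3, add_assoc, ← Finset.sum_add_distrib]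
  exact congrArg _ (Finset.sum_congr rfl fun j _ => h.nab_mul (D j a) j)

end

theorem t_INJD : INJD_stmt.{u} := by
  intro K _ n φ D nab hS V hfin hV F _ _ N X s hs
  classical
  have := hfin
  let T : Fin n → (V →ₗ[K] V) := fun j => (D j).restrict (hV j)
  let Dd : (V →ₗ[K] (Fin N → F)) →ₗ[F] (V →ₗ[K] (Fin N → F)) :=
    ∑ j, opE (T j) (ev X (φ (x j)))
  have hDd : ∀ (t : V →ₗ[K] (Fin N → F)) (v : V),
      Dd t v = ∑ j, Matrix.vecMul (t (T j v)) (ev X (φ (x j))) := by
    intro t v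
    simp only [Dd, LinearMap.sum_apply, opE_apply]
  have hsurj : Function.Surjective (((LinearMap.id : (V →ₗ[K] (Fin N → F)) →ₗ[F] (V →ₗ[K] (Fin N → F))) - Dd)) := by
    intro t
    obtain ⟨t', ht'⟩ := LinearMap.exists_extend t
    let σ : A K n →ₗ[K] (Fin N → F) := (zeta X t') ∘ₗ nab
    have hσ : ∀ a, σ a = t' a + ∑ k, Matrix.vecMul (σ (D k a)) (ev X (φ (x k))) := by
      intro a
      have e1 : σ a = zeta X t' (nab a) := rfl
      rw [e1, nab_eq hS a, map_add, map_sum, zeta_tmul, map_one, Matrix.vecMul_one]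
      refine congrArg _ (Finset.sum_congr rfl fun k _ => ?_)
      rw [zeta_mul]
      rfl
    refine ⟨σ ∘ₗ V.subtype, ?_⟩
    refine LinearMap.ext fun v => ?_
    rw [LinearMap.sub_apply, LinearMap.id_apply, LinearMap.sub_apply, hDd]
    have e2 : (σ ∘ₗ V.subtype) v = σ (v : A K n) := rfl
    rw [e2, hσ (v : A K n)]
    have e3 : t' (v : A K n) = t v := by
      rw [← ht']; rfl
    rw [e3]
    exact add_sub_cancel_right _ _
  have hinj : Function.Injective (((LinearMap.id : (V →ₗ[K] (Fin N → F)) →ₗ[F] (V →ₗ[K] (Fin N → F))) - Dd)) :=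
    LinearMap.injective_iff_surjective.mpr hsurj
  apply hinj
  rw [map_zero]
  refine LinearMap.ext fun v => ?_
  rw [LinearMap.sub_apply, LinearMap.id_apply, LinearMap.sub_apply, hDd, LinearMap.zero_apply,
    sub_eq_zero]
  exact hs v (fun j => T j v) (fun j => rfl)

end Pool.Agent.W929.GE
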